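import Pool.Agent.H85.ERG.Targets

/-!
# Elementary properties of folding (FO)
-/

set_option autoImplicit false

namespace Pool.Agent.H14.ERG

open MeasureTheory Set Metric Filter Topology Pool.Agent.H85.ERG Pool.Agent.H93.EN
open Pool.Agent.H93.BL hiding T_B1 T_B2 T_B3 T_SB T_SC

variable {ι : Type} (P : Polygon ι)

theorem sg_eq_ip (j : ι) (y : ℂ) : sg P j y = ip (y - P.p j) (P.n j) := by
  rw [P.ip_n]
  rfl

theorem sg_aff (j : ι) (y : ℂ) : sg P j (P.aff j y) = -sg P j y := by
  rw [sg_eq_ip, sg_eq_ip, P.aff_eq, add_sub_cancel_left, P.ip_refl_n]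

theorem ip_sub_smul (c n : ℂ) (r : ℝ) (hn : ip n n = 1) :
    ip (c - (r : ℂ) * n) (c - (r : ℂ) * n) = ip c c - 2 * r * ip c n + r ^ 2 := by
  rw [ip_sub_left, ip_sub_right, ip_sub_right, ip_smul_left, ip_smul_left, ip_smul_right,
    ip_smul_right, hn, ip_comm n c]
  ring

theorem dist_aff_le (j : ι) {x y : ℂ} (hx : 0 ≤ sg P j x) (hy : sg P j y ≤ 0) :
    dist (P.aff j y) x ≤ dist y x := by
  rw [dist_eq_norm, dist_eq_norm]
  rw [← pow_le_pow_iff_left₀ (norm_nonneg _) (norm_nonneg _) two_ne_zero, ← ip_self, ← ip_self]
  rw [sg_eq_ip] at hx hy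
  set a := y - P.p j with ha
  set b := x - P.p j with hb
  have e1 : P.aff j y - x = (a - b) - ((2 * ip a (P.n j) : ℝ) : ℂ) * P.n j := by
    rw [P.aff_eq, P.refl_eq, ← ha, hb]
    ring
  have e2 : y - x = a - b := by rw [ha, hb]; ring
  rw [e1, e2]
  set c := a - b with hc
  have e3 : ip c (P.n j) = ip a (P.n j) - ip b (P.n j) := by rw [hc, ip_sub_left]
  have e4 : ip (c - ((2 * ip a (P.n j) : ℝ) : ℂ) * P.n j)
      (c - ((2 * ip a (P.n j) : ℝ) : ℂ) * P.n j) =
      ip c c + 4 * ip a (P.n j) * ip b (P.n j) := by
    rw [ip_sub_smul c (P.n j) _ (P.ip_n_n j), e3]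
    ring
  rw [e4]
  nlinarith [mul_nonneg (neg_nonneg.mpr hy) hx]

theorem not_mem_of_openSegment (j : ι) {y : ℂ} (hy : y ∈ openSegment ℝ (P.p j) (P.q j)) :
    y ∉ P.Ω := by
  intro h
  have h1 : y ∈ frontier P.Ω := by
    rw [P.frontier_eq]
    exact mem_iUnion.mpr ⟨j, openSegment_subset_segment ℝ _ _ hy⟩
  rw [P.isOpen.frontier_eq] at h1
  exact h1.2 h

theorem fp_dist_le {x : ℂ} {R : ℝ} {τ : Option ι} (hc : Chart P x R τ) (y : ℂ) :
    dist (fp P τ y) x ≤ dist y x := by
  cases τ with
  | none => exact le_rfl
  | some j =>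
    show dist (if 0 < sg P j y then y else P.aff j y) x ≤ dist y x
    split_ifs with h
    · exact le_rfl
    · exact dist_aff_le P j hc.1 (not_lt.mp h)

theorem fo : T_FO := by
  intro ι P
  refine ⟨?_, ?_, ?_⟩
  · intro τ y v
    cases τ with
    | none => exact ⟨rfl, rfl, fun _ => rfl, fun _ => rfl⟩
    | some j =>
      by_cases h : 0 < sg P j y
      · have e : ∀ w, fw P (some j) y w = w := fun w => if_pos h
        simp only [e]
        exact ⟨trivial, trivial, fun _ => trivial, fun _ => trivial⟩
      · have e : ∀ w, fw P (some j) y w = P.refl j w := fun w => if_neg h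
        simp only [e]
        exact ⟨P.norm_refl j v, P.refl_refl j v, fun v' => P.refl_add j v v',
          fun t => P.refl_smul j t v⟩
  · intro F τ y w
    cases τ with
    | none => rfl
    | some j =>
      show (if 0 < sg P j y then F y w else F (P.aff j y) (P.refl j w)) =
        F (if 0 < sg P j y then y else P.aff j y) (if 0 < sg P j y then w else P.refl j w)
      split_ifs <;> rfl
  · intro x R τ hc
    refine ⟨fun y hy => ?_, fun hx hR => ?_⟩
    · have hd := fp_dist_le P hc y
      refine ⟨hd, ?_, ?_, ?_, ?_⟩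
      · have h1 : rh P x ≤ rh P (fp P τ y) + dist x (fp P τ y) := infDist_le_infDist_add_dist
        rw [dist_comm] at h1
        linarith
      · have h1 : rh P (fp P τ y) ≤ rh P x + dist (fp P τ y) x := infDist_le_infDist_add_dist
        linarith
      · cases τ with
        | none =>
          refine ⟨fun _ j hj => (by cases hj), fun _ => ?_⟩
          exact hc hy
        | some j =>
          have hfp : fp P (some j) y = if 0 < sg P j y then y else P.aff j y := rfl
          rcases lt_trichotomy (sg P j y) 0 with h | h | h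
          · rw [hfp, if_neg (not_lt.mpr h.le)]
            refine ⟨fun _ i hi => ?_, fun _ => ?_⟩
            · cases hi
              exact h.ne
            · refine hc.2.1 _ ?_ ?_
              · exact mem_ball.mpr ((dist_aff_le P j hc.1 h.le).trans_lt (mem_ball.mp hy))
              · rw [sg_aff]
                linarith
          · have h1 := hc.2.2 y hy h
            rw [hfp, if_neg (not_lt.mpr h.le),
              P.aff_of_mem_segment j y (openSegment_subset_segment ℝ _ _ h1)]
            refine ⟨fun h2 => absurd h2 (not_mem_of_openSegment P j h1), fun h2 => ?_⟩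
            exact absurd h (h2 j rfl)
          · rw [hfp, if_pos h]
            refine ⟨fun _ i hi => ?_, fun _ => hc.2.1 y hy h⟩
            cases hi
            exact h.ne'
      · intro R' hR' _
        have hsub : ball (fp P τ y) R' ⊆ ball x R := by
          intro z hz
          rw [mem_ball] at hz ⊢
          calc dist z x ≤ dist z (fp P τ y) + dist (fp P τ y) x := dist_triangle _ _ _
            _ < R' + dist y x := add_lt_add_of_lt_of_le hz hd
            _ ≤ R := by linarith
        cases τ with
        | none => exact hsub.trans hc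
        | some j =>
          refine ⟨?_, fun z hz h => hc.2.1 z (hsub hz) h, fun z hz h => hc.2.2 z (hsub hz) h⟩
          show 0 ≤ sg P j (if 0 < sg P j y then y else P.aff j y)
          split_ifs with h
          · exact h.le
          · rw [sg_aff]
            linarith
    · cases τ with
      | none => exact ⟨rfl, fun _ => rfl⟩
      | some j =>
        have h0 : sg P j x ≠ 0 := by
          intro h
          exact not_mem_of_openSegment P j (hc.2.2 x (mem_ball_self hR) h) hx
        have h1 : 0 < sg P j x := lt_of_le_of_ne hc.1 (Ne.symm h0)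
        exact ⟨if_pos h1, fun w => if_pos h1⟩

end Pool.Agent.H14.ERG
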